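import Pool.Agent.Helper14.W4.Dv

set_option autoImplicit false

/-!
# Five-term functionals over an algebraically closed field
-/

noncomputable section

open Polynomial
open scoped Classical

namespace Helper14.W4

open Helper14.Gon

universe u v

/-- five-term functionals on a field -/
structure Five {F : Type u} [Field F] (l : F → ℚ) : Prop where
  inv : ∀ x, l x⁻¹ = - l x
  sub : ∀ x, l (1 - x) = - l x
  five : ∀ u w, u ≠ 0 → u ≠ 1 → w ≠ 0 → w ≠ 1 → u ≠ w →
    l (u / w) - l ((u - 1) / (w - 1)) + l ((u - 1) * w / (u * (w - 1))) - l u + l w = 0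

lemma Five.zero {F : Type u} [Field F] {l : F → ℚ} (h : Five l) : l 0 = 0 := by
  have := h.inv 0
  rw [inv_zero] at this
  linarith

/-- extension by zero to the point at infinity -/
def lP {F : Type u} (l : F → ℚ) : P1 F → ℚ := fun x => x.elim 0 l

lemma Five.one {F : Type u} [Field F] {l : F → ℚ} (h : Five l) : l 1 = 0 := by
  have := h.sub 0
  rw [sub_zero, h.zero] at this
  simpa using this

lemma Five.difference {F : Type u} [Field F] {l m : F → ℚ} (h : Five l) (h' : Five m) :
    Five (fun x => l x - m x) where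
  inv x := by
    have h1 := h.inv x; have h2 := h'.inv x
    change l x⁻¹ - m x⁻¹ = -(l x - m x)
    rw [h1, h2]; ring
  sub x := by
    have h1 := h.sub x; have h2 := h'.sub x
    change l (1 - x) - m (1 - x) = -(l x - m x)
    rw [h1, h2]; ring
  five u w a b c d e := by
    have h1 := h.five u w a b c d e
    have h2 := h'.five u w a b c d e
    linarith

/-- (S1) alternating bilinear functionals on `F^*` give five-term functionals -/
theorem Five.ofAlt {F : Type u} [Field F] (κ : Additive Fˣ →+ Additive Fˣ →+ ℚ)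
    (hκ : ∀ v, κ v v = 0) : Five (fun f : F => κ (lg (1 - f)) (lg f)) := by
  have anti : ∀ a b, κ a b = - κ b a := by
    intro a b
    have h := hκ (a + b)
    simp only [map_add, AddMonoidHom.add_apply, hκ] at h
    linarith
  have hm1 : ∀ a, κ (lg (-1)) a = 0 := by
    intro a
    have h := congrArg (fun z => κ z a) (lg_neg_one (F := F))
    simp only [map_zsmul, AddMonoidHom.smul_apply, map_zero, AddMonoidHom.zero_apply,
      zsmul_eq_mul] at h
    simpa using h
  have hm2 : ∀ a, κ a (lg (-1)) = 0 := fun a => by rw [anti, hm1, neg_zero]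
  have hneg : ∀ x : F, x ≠ 0 → lg (-x) = lg (-1) + lg x := fun x hx => by
    rw [← lg_mul (by simp) hx, neg_one_mul]
  refine ⟨fun x => ?_, fun x => ?_, fun u w hu0 hu1 hw0 hw1 huw => ?_⟩
  · by_cases hx : x = 0
    · subst hx; simp
    by_cases hx1 : x = 1
    · subst hx1; simp
    have h1 : (1 : F) - x ≠ 0 := sub_ne_zero.2 (Ne.symm hx1)
    have e : 1 - x⁻¹ = (-(1 - x)) / x := by field_simp; ring
    rw [e, lg_div (neg_ne_zero.2 h1) hx, hneg _ h1, lg_inv]
    simp only [map_add, map_sub, map_neg, AddMonoidHom.add_apply, AddMonoidHom.sub_apply, hm1, hκ]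
    ring
  · rw [sub_sub_cancel, anti]
  · have hs : w - u ≠ 0 := sub_ne_zero.2 (Ne.symm huw)
    have hu : u - 1 ≠ 0 := sub_ne_zero.2 hu1
    have hw : w - 1 ≠ 0 := sub_ne_zero.2 hw1
    have e1 : 1 - u / w = (w - u) / w := by field_simp
    have e2 : 1 - (u - 1) / (w - 1) = (w - u) / (w - 1) := by field_simp; ring
    have e3 : 1 - (u - 1) * w / (u * (w - 1)) = (w - u) / (u * (w - 1)) := by field_simp; ring
    have e4 : 1 - u = - (u - 1) := by ring
    have e5 : 1 - w = - (w - 1) := by ring
    rw [e1, e2, e3, e4, e5, lg_div hs hw0, lg_div hs hw, lg_div hs (mul_ne_zero hu0 hw),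
      lg_mul hu0 hw, hneg _ hu, hneg _ hw, lg_div hu0 hw0, lg_div hu hw,
      lg_div (mul_ne_zero hu hw0) (mul_ne_zero hu0 hw), lg_mul hu hw0, lg_mul hu0 hw]
    simp only [map_add, map_sub, AddMonoidHom.add_apply, AddMonoidHom.sub_apply, hm1, hκ]
    have a1 := anti (lg w) (lg u)
    have a2 := anti (lg (w - 1)) (lg (u - 1))
    have a3 := anti (lg u) (lg (u - 1))
    have a4 := anti (lg u) (lg (w - 1))
    linarith

section spec

variable {K : Type u} [Field K]

lemma sp_inv_some {c : K} {f : RatFunc K} {a : K} (h : spec c (some f) = some a) (ha : a ≠ 0) :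
    spec c (some f⁻¹) = some a⁻¹ := by
  obtain ⟨p, q, hq, hpq, hf⟩ := exists_rep c f
  rw [hf, spec_div c p q hq hpq] at h
  split_ifs at h with h1
  have h2 : p.eval c / q.eval c = a := Option.some.inj h
  have h3 : p.eval c ≠ 0 := by
    intro h0; rw [h0, zero_div] at h2; exact ha h2.symm
  have hp : p ≠ 0 := by rintro rfl; simp at h3
  rw [hf, inv_div, spec_div c q p hp (Or.inr h3), if_neg h3, ← h2, inv_div]

lemma sp_inv_zero {c : K} {f : RatFunc K} (hf0 : f ≠ 0) (h : spec c (some f) = some 0) :
    spec c (some f⁻¹) = none := by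
  obtain ⟨p, q, hq, hpq, hf⟩ := exists_rep c f
  rw [hf, spec_div c p q hq hpq] at h
  split_ifs at h with h1
  have h2 : p.eval c / q.eval c = 0 := Option.some.inj h
  have h3 : p.eval c = 0 := by
    rcases div_eq_zero_iff.1 h2 with h | h
    · exact h
    · exact absurd h h1
  have hp : p ≠ 0 := by rintro rfl; simp at hf; exact hf0 hf
  rw [hf, inv_div, spec_div c q p hp (Or.inl h1), if_pos h3]

lemma sp_inv_none {c : K} {f : RatFunc K} (h : spec c (some f) = none) :
    spec c (some f⁻¹) = some 0 := by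
  obtain ⟨p, q, hq, hpq, hf⟩ := exists_rep c f
  rw [hf, spec_div c p q hq hpq] at h
  split_ifs at h with h1
  have h3 : p.eval c ≠ 0 := by
    rcases hpq with h | h
    · exact h
    · exact absurd h1 h
  have hp : p ≠ 0 := by rintro rfl; simp at h3
  rw [hf, inv_div, spec_div c q p hp (Or.inr h3), if_neg h3, h1, zero_div]

lemma sp_mul_some {c : K} {f g : RatFunc K} {a b : K} (h : spec c (some f) = some a)
    (h' : spec c (some g) = some b) : spec c (some (f * g)) = some (a * b) := by
  obtain ⟨p, q, hq, hpq, hf⟩ := exists_rep c f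
  obtain ⟨p', q', hq', hpq', hf'⟩ := exists_rep c g
  rw [hf, spec_div c p q hq hpq] at h
  rw [hf', spec_div c p' q' hq' hpq'] at h'
  split_ifs at h with h1
  split_ifs at h' with h1'
  have h2 : p.eval c / q.eval c = a := Option.some.inj h
  have h2' : p'.eval c / q'.eval c = b := Option.some.inj h'
  have h3 : (q * q').eval c ≠ 0 := by rw [eval_mul]; exact mul_ne_zero h1 h1'
  rw [hf, hf', div_mul_div_comm, ← map_mul, ← map_mul,
    spec_div c _ _ (mul_ne_zero hq hq') (Or.inr h3), if_neg h3, ← h2, ← h2', eval_mul, eval_mul,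
    div_mul_div_comm]

lemma sp_mul_none {c : K} {f g : RatFunc K} (h : spec c (some f) = none)
    (h' : spec c (some g) ≠ some 0) : spec c (some (f * g)) = none := by
  obtain ⟨p, q, hq, hpq, hf⟩ := exists_rep c f
  obtain ⟨p', q', hq', hpq', hf'⟩ := exists_rep c g
  rw [hf, spec_div c p q hq hpq] at h
  rw [hf', spec_div c p' q' hq' hpq'] at h'
  split_ifs at h with h1
  have h2 : p.eval c ≠ 0 := by
    rcases hpq with h | h
    · exact h
    · exact absurd h1 h
  have h3 : p'.eval c ≠ 0 := by
    intro h0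
    have h4 : q'.eval c ≠ 0 := by
      rcases hpq' with h | h
      · exact absurd h0 h
      · exact h
    rw [if_neg h4, h0, zero_div] at h'
    exact h' rfl
  have h5 : (p * p').eval c ≠ 0 := by rw [eval_mul]; exact mul_ne_zero h2 h3
  rw [hf, hf', div_mul_div_comm, ← map_mul, ← map_mul,
    spec_div c _ _ (mul_ne_zero hq hq') (Or.inl h5), if_pos (by rw [eval_mul, h1, zero_mul])]

lemma sp_sub_none {c : K} {f : RatFunc K} (h : spec c (some f) = none) :
    spec c (some (1 - f)) = none := by
  rcases hs : spec c (some (1 - f)) with _ | a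
  · rfl
  · have := spec_one_sub hs
    rw [sub_sub_cancel, h] at this
    exact absurd this (by simp)

lemma sp_mul_one {c : K} {f g : RatFunc K} (h : spec c (some g) = some 1) :
    spec c (some (f * g)) = spec c (some f) := by
  rcases hs : spec c (some f) with _ | a
  · exact sp_mul_none hs (by rw [h]; simp)
  · rw [sp_mul_some hs h, mul_one]

lemma sp_div_some {c : K} {f g : RatFunc K} {a b : K} (h : spec c (some f) = some a)
    (h' : spec c (some g) = some b) (hb : b ≠ 0) : spec c (some (f / g)) = some (a / b) := by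
  rw [div_eq_mul_inv, sp_mul_some h (sp_inv_some h' hb), div_eq_mul_inv]

lemma sp_div_zero {c : K} {f g : RatFunc K} {a : K} (h : spec c (some f) = some a) (ha : a ≠ 0)
    (hg : g ≠ 0) (h' : spec c (some g) = some 0) : spec c (some (f / g)) = none := by
  rw [div_eq_mul_inv, mul_comm]
  exact sp_mul_none (sp_inv_zero hg h') (by rw [h]; simpa using ha)

lemma sp_div_none {c : K} {f g : RatFunc K} {a : K} (h : spec c (some f) = some a)
    (h' : spec c (some g) = none) : spec c (some (f / g)) = some 0 := by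
  rw [div_eq_mul_inv, sp_mul_some h (sp_inv_none h'), mul_zero]

lemma sp_none_div {c : K} {f g : RatFunc K} {b : K} (h : spec c (some f) = none)
    (hg : g ≠ 0) (h' : spec c (some g) = some b) : spec c (some (f / g)) = none := by
  rw [div_eq_mul_inv]
  refine sp_mul_none h ?_
  by_cases hb : b = 0
  · subst hb
    rw [sp_inv_zero hg h']; simp
  · rw [sp_inv_some h' hb]; simpa using hb

lemma sp_sub_one {c : K} {f : RatFunc K} {a : K} (h : spec c (some f) = some a) :
    spec c (some (f - 1)) = some (a - 1) := by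
  have e : f - 1 = (1 - f) * RatFunc.C (-1) := by simp
  rw [e, sp_mul_some (spec_one_sub h) (spec_C c (-1))]
  congr 1; ring

lemma sp_none_sub_one {c : K} {f : RatFunc K} (h : spec c (some f) = none) :
    spec c (some (f - 1)) = none := by
  have e : f - 1 = (1 - f) * RatFunc.C (-1) := by simp
  rw [e]
  exact sp_mul_none (sp_sub_none h) (by rw [spec_C]; simp)

end spec

/-- (S2) specialisation of a five-term functional -/
theorem Five.ofSpec {K : Type u} [Field K] {l : K → ℚ} (h : Five l) (x : K) :
    Five (fun f : RatFunc K => lP l (spec x (some f))) := by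
  have l0 := h.zero
  have l1 := h.one
  have hinv : ∀ f : RatFunc K, lP l (spec x (some f⁻¹)) = - lP l (spec x (some f)) := by
    intro f
    by_cases hf : f = 0
    · subst hf; simp [lP, l0]
    rcases hs : spec x (some f) with _ | a
    · rw [sp_inv_none hs]; simp [lP, l0]
    · by_cases ha : a = 0
      · subst ha
        rw [sp_inv_zero hf hs]; simp [lP, l0]
      · rw [sp_inv_some hs ha]; exact h.inv a
  refine ⟨hinv, fun f => ?_, fun u w hu0 hu1 hw0 hw1 huw => ?_⟩
  · rcases hs : spec x (some f) with _ | a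
    · rw [sp_sub_none hs]; simp [lP]
    · rw [spec_one_sub hs]; exact h.sub a
  · have hu : u - 1 ≠ 0 := sub_ne_zero.2 hu1
    have hw : w - 1 ≠ 0 := sub_ne_zero.2 hw1
    have hX0 : 1 - u⁻¹ ≠ 0 := by
      rw [sub_ne_zero]; intro h; exact hu1 (inv_eq_one.1 h.symm)
    have hY0 : 1 - w⁻¹ ≠ 0 := by
      rw [sub_ne_zero]; intro h; exact hw1 (inv_eq_one.1 h.symm)
    have e3 : (u - 1) * w / (u * (w - 1)) = (1 - u⁻¹) / (1 - w⁻¹) := by
      field_simp
    have e3' : (u - 1) * w / (u * (w - 1)) = (u / w)⁻¹ * ((u - 1) / (w - 1)) := by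
      field_simp
    have e3'' : (u - 1) / (w - 1) = (u / w) * ((u - 1) * w / (u * (w - 1))) := by
      field_simp
    rcases hsu : spec x (some u) with _ | a <;> rcases hsw : spec x (some w) with _ | b
    · -- both infinite
      have hX := spec_one_sub (sp_inv_none hsu)
      have hY := spec_one_sub (sp_inv_none hsw)
      rw [sub_zero] at hX hY
      have hT3 : spec x (some ((u - 1) * w / (u * (w - 1)))) = some 1 := by
        rw [e3, sp_div_some hX hY one_ne_zero, div_one]
      have hT2 : spec x (some ((u - 1) / (w - 1))) = spec x (some (u / w)) := by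
        rw [e3'', sp_mul_one hT3]
      rw [hT3, hT2]
      simp [lP, l1]
    · -- u infinite
      have hX := spec_one_sub (sp_inv_none hsu)
      rw [sub_zero] at hX
      rw [sp_none_div hsu hw0 hsw, sp_none_div (sp_none_sub_one hsu) hw (sp_sub_one hsw), e3]
      by_cases hb : b = 0
      · subst hb
        rw [sp_div_none hX (sp_sub_none (sp_inv_zero hw0 hsw))]
        simp [lP, l0]
      have hY := spec_one_sub (sp_inv_some hsw hb)
      by_cases hb1 : b = 1
      · subst hb1
        rw [inv_one, sub_self] at hY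
        rw [sp_div_zero hX one_ne_zero hY0 hY]
        simp [lP, l1]
      have hb2 : 1 - b⁻¹ ≠ 0 := by
        rw [sub_ne_zero]; intro h; exact hb1 (inv_eq_one.1 h.symm)
      rw [sp_div_some hX hY hb2, one_div]
      change (0 : ℚ) - 0 + l (1 - b⁻¹)⁻¹ - 0 + l b = 0
      rw [h.inv, h.sub, h.inv]; ring
    · -- w infinite
      have hY := spec_one_sub (sp_inv_none hsw)
      rw [sub_zero] at hY
      rw [sp_div_none hsu hsw, sp_div_none (sp_sub_one hsu) (sp_none_sub_one hsw), e3]
      by_cases ha : a = 0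
      · subst ha
        rw [sp_none_div (sp_sub_none (sp_inv_zero hu0 hsu)) hY0 hY]
        simp [lP, l0]
      have hX := spec_one_sub (sp_inv_some hsu ha)
      rw [sp_div_some hX hY one_ne_zero, div_one]
      change l 0 - l 0 + l (1 - a⁻¹) - l a + 0 = 0
      rw [h.sub, h.inv]; ring
    · by_cases ha : a = 0
      · subst ha
        have hX := sp_sub_none (sp_inv_zero hu0 hsu)
        by_cases hb : b = 0
        · subst hb
          have hT2 : spec x (some ((u - 1) / (w - 1))) = some 1 := by
            rw [sp_div_some (sp_sub_one hsu) (sp_sub_one hsw) (by simp)]; simp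
          rw [e3', sp_mul_one hT2, hT2, hinv]
          simp [lP, l1]
        have hY := spec_one_sub (sp_inv_some hsw hb)
        rw [sp_div_some hsu hsw hb, e3, sp_none_div hX hY0 hY]
        by_cases hb1 : b = 1
        · subst hb1
          have := sp_sub_one hsw
          rw [sub_self] at this
          rw [sp_div_zero (sp_sub_one hsu) (by simp) hw this]
          simp [lP, l0, l1]
        have hb2 : b - 1 ≠ 0 := sub_ne_zero.2 hb1
        rw [sp_div_some (sp_sub_one hsu) (sp_sub_one hsw) hb2]
        change l (0 / b) - l ((0 - 1) / (b - 1)) + 0 - l 0 + l b = 0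
        have e : (0 - 1) / (b - 1) = (1 - b)⁻¹ := by
          have : 1 - b ≠ 0 := sub_ne_zero.2 (Ne.symm hb1)
          field_simp; ring
        rw [e, h.inv, h.sub, zero_div, l0]; ring
      have hX := spec_one_sub (sp_inv_some hsu ha)
      by_cases hb : b = 0
      · subst hb
        have hY := sp_sub_none (sp_inv_zero hw0 hsw)
        rw [sp_div_zero hsu ha hw0 hsw, e3, sp_div_none hX hY,
          sp_div_some (sp_sub_one hsu) (sp_sub_one hsw) (by simp)]
        change 0 - l ((a - 1) / (0 - 1)) + l 0 - l a + l 0 = 0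
        have e : (a - 1) / (0 - 1) = 1 - a := by ring
        rw [e, h.sub, l0]; ring
      have hY := spec_one_sub (sp_inv_some hsw hb)
      rw [sp_div_some hsu hsw hb]
      by_cases hb1 : b = 1
      · subst hb1
        have hw1' := sp_sub_one hsw
        rw [sub_self] at hw1'
        rw [inv_one, sub_self] at hY
        by_cases ha1 : a = 1
        · subst ha1
          have hT1 : spec x (some (u / w)⁻¹) = some 1 := by
            rw [sp_inv_some (sp_div_some hsu hsw one_ne_zero) (by simp)]; simp
          have hT3 : spec x (some ((u - 1) * w / (u * (w - 1)))) =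
              spec x (some ((u - 1) / (w - 1))) := by
            rw [e3', mul_comm, sp_mul_one hT1]
          rw [hT3]
          change l (1 / 1) - lP l (spec x (some ((u - 1) / (w - 1)))) +
            lP l (spec x (some ((u - 1) / (w - 1)))) - l 1 + l 1 = 0
          rw [div_one, l1]; ring
        have ha2 : 1 - a⁻¹ ≠ 0 := by
          rw [sub_ne_zero]; intro h; exact ha1 (inv_eq_one.1 h.symm)
        rw [e3, sp_div_zero hX ha2 hY0 hY, sp_div_zero (sp_sub_one hsu) (sub_ne_zero.2 ha1) hw hw1']
        change l (a / 1) - 0 + 0 - l a + l 1 = 0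
        rw [div_one, l1]; ring
      have hb2 : b - 1 ≠ 0 := sub_ne_zero.2 hb1
      have hb3 : 1 - b⁻¹ ≠ 0 := by
        rw [sub_ne_zero]; intro h; exact hb1 (inv_eq_one.1 h.symm)
      rw [e3, sp_div_some hX hY hb3, sp_div_some (sp_sub_one hsu) (sp_sub_one hsw) hb2]
      change l (a / b) - l ((a - 1) / (b - 1)) + l ((1 - a⁻¹) / (1 - b⁻¹)) - l a + l b = 0
      have e : (1 - a⁻¹) / (1 - b⁻¹) = (a - 1) * b / (a * (b - 1)) := by field_simp
      rw [e]
      by_cases ha1 : a = 1
      · subst ha1
        rw [sub_self, zero_div, zero_mul, zero_div, l0, one_div, h.inv, l1]; ring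
      by_cases hab : a = b
      · subst hab
        rw [div_self ha, div_self hb2, mul_comm a (a - 1), div_self (mul_ne_zero hb2 ha), l1]; ring
      exact h.five a b ha ha1 hb hb1 hab

lemma Five.step {F : Type u} [Field F] {D : F → ℚ} (h : Five D) {u w : F} (hu0 : u ≠ 0)
    (hu1 : u ≠ 1) (hw0 : w ≠ 0) (hw1 : w ≠ 1) (hw : D w = 0) (h1 : D (u / w) = 0)
    (h2 : D ((u - 1) / (w - 1)) = 0) (h3 : D ((u - 1) * w / (u * (w - 1))) = 0) : D u = 0 := by
  by_cases huw : u = w
  · rw [huw, hw]
  · have := h.five u w hu0 hu1 hw0 hw1 huw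
    rw [h1, h2, h3, hw] at this
    linarith

section gen

variable {K : Type u} [Field K]

lemma Cne {a b : K} (h : a ≠ b) : (RatFunc.C a - RatFunc.C b : RatFunc K) ≠ 0 := by
  rw [← map_sub]; exact C_ne (sub_ne_zero.2 h)

lemma X_ne_C (a : K) : (RatFunc.X : RatFunc K) ≠ RatFunc.C a := sub_ne_zero.1 (X_sub_ne a)

/-- the functional vanishes on fractional linear functions -/
lemma Five.frac {D : RatFunc K → ℚ} (h : Five D) (h0 : ∀ c : K, D (RatFunc.C c) = 0)
    (h1 : ∀ p q : K, p ≠ q → D ((RatFunc.X - RatFunc.C q) / RatFunc.C (p - q)) = 0)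
    {a b c : K} (hab : a ≠ b) (hac : a ≠ c) (hbc : b ≠ c) :
    D ((RatFunc.X - RatFunc.C a) * RatFunc.C (b - c) /
      ((RatFunc.X - RatFunc.C c) * RatFunc.C (b - a))) = 0 := by
  have xa := X_sub_ne a
  have xc := X_sub_ne c
  have c1 := Cne hac
  have c2 := Cne hbc
  have c3 := Cne (Ne.symm hab)
  have e1 := h1 a c hac
  have e2 := h1 b c hbc
  have e3 := h1 b a (Ne.symm hab)
  have e4 := h0 ((b - c) / (a - c))
  have five := h.five ((RatFunc.X - RatFunc.C c) / RatFunc.C (a - c))
    (RatFunc.C ((b - c) / (a - c))) ?_ ?_ ?_ ?_ ?_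
  · have f1 : (RatFunc.X - RatFunc.C c) / RatFunc.C (a - c) / RatFunc.C ((b - c) / (a - c)) =
        (RatFunc.X - RatFunc.C c) / RatFunc.C (b - c) := by
      rw [map_div₀, map_sub, map_sub]; field_simp
    have f2 : ((RatFunc.X - RatFunc.C c) / RatFunc.C (a - c) - 1) /
        (RatFunc.C ((b - c) / (a - c)) - 1) = (RatFunc.X - RatFunc.C a) / RatFunc.C (b - a) := by
      have hh : (RatFunc.C b - RatFunc.C c - (RatFunc.C a - RatFunc.C c) : RatFunc K) ≠ 0 := by
        simpa using c3
      rw [map_div₀, map_sub, map_sub, map_sub]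
      rw [div_sub_one c1, div_sub_one c1, div_div_div_cancel_right₀ c1]
      congr 1 <;> ring
    have f3 : ((RatFunc.X - RatFunc.C c) / RatFunc.C (a - c) - 1) *
        RatFunc.C ((b - c) / (a - c)) / ((RatFunc.X - RatFunc.C c) / RatFunc.C (a - c) *
        (RatFunc.C ((b - c) / (a - c)) - 1)) = (RatFunc.X - RatFunc.C a) * RatFunc.C (b - c) /
      ((RatFunc.X - RatFunc.C c) * RatFunc.C (b - a)) := by
      rw [map_div₀, map_sub, map_sub, map_sub]
      rw [div_sub_one c1, div_sub_one c1]
      have g1 : (RatFunc.X - RatFunc.C c - (RatFunc.C a - RatFunc.C c) : RatFunc K) =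
        RatFunc.X - RatFunc.C a := by ring
      have g2 : (RatFunc.C b - RatFunc.C c - (RatFunc.C a - RatFunc.C c) : RatFunc K) =
        RatFunc.C b - RatFunc.C a := by ring
      rw [g1, g2]
      field_simp
    rw [f1, f2, f3, e1, e2, e3, e4] at five
    linarith
  · rw [map_sub]; exact div_ne_zero xc c1
  · rw [map_sub]
    intro h
    rw [div_eq_one_iff_eq c1] at h
    exact X_ne_C a (sub_left_injective h)
  · exact C_ne (div_ne_zero (sub_ne_zero.2 hbc) (sub_ne_zero.2 hac))
  · intro h
    rw [map_div₀, map_sub, map_sub, div_eq_one_iff_eq c1] at h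
    have := sub_left_injective h
    exact hab (RatFunc.C_injective this).symm
  · intro h
    rw [map_div₀, map_sub, map_sub, div_left_inj' c1] at h
    exact X_ne_C b (sub_left_injective h)

/-- polynomials as rational functions -/

lemma io_X_sub (a : K) : algebraMap K[X] (RatFunc K) (X - C a) = RatFunc.X - RatFunc.C a := by
  rw [map_sub, RatFunc.algebraMap_X, RatFunc.algebraMap_C]

lemma io_ne {P : K[X]} (h : P ≠ 0) : algebraMap K[X] (RatFunc K) P ≠ 0 := RatFunc.algebraMap_ne_zero h

lemma io_const {P : K[X]} (h : P.natDegree = 0) : algebraMap K[X] (RatFunc K) P = RatFunc.C (P.coeff 0) := by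
  conv_lhs => rw [eq_C_of_natDegree_eq_zero h]
  rw [RatFunc.algebraMap_C]

lemma root_of_pos [IsAlgClosed K] {P : K[X]} (h : P.natDegree ≠ 0) :
    ∃ (a : K) (A : K[X]), P = (X - C a) * A ∧ A.natDegree + 1 = P.natDegree ∧ A ≠ 0 := by
  obtain ⟨a, ha⟩ := IsAlgClosed.exists_root P (fun hd => h (natDegree_eq_of_degree_eq_some hd))
  obtain ⟨A, hA⟩ := dvd_iff_isRoot.2 ha
  have hP : P ≠ 0 := by rintro rfl; simp at h
  have hA0 : A ≠ 0 := by rintro rfl; rw [mul_zero] at hA; exact hP hA
  refine ⟨a, A, hA, ?_, hA0⟩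
  rw [hA, natDegree_mul (X_sub_C_ne_zero a) hA0, natDegree_X_sub_C]; ring

lemma Five.poly [IsAlgClosed K] {D : RatFunc K → ℚ} (h : Five D)
    (h0 : ∀ c : K, D (RatFunc.C c) = 0)
    (h1 : ∀ p q : K, p ≠ q → D ((RatFunc.X - RatFunc.C q) / RatFunc.C (p - q)) = 0) {N : ℕ}
    (IH : ∀ A C : K[X], A.natDegree ≤ N → C.natDegree ≤ N → D (algebraMap K[X] (RatFunc K) A / algebraMap K[X] (RatFunc K) C) = 0)
    (P : K[X]) (hP : P.natDegree ≤ N + 1) : D (algebraMap K[X] (RatFunc K) P) = 0 := by
  by_cases hd : P.natDegree = 0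
  · rw [io_const hd]; exact h0 _
  have hP0 : P ≠ 0 := by rintro rfl; simp at hd
  have hd' : (P - 1).natDegree = P.natDegree := by
    rw [← C_1, natDegree_sub_C]
  obtain ⟨a, A, hA, hAd, hA0⟩ := root_of_pos hd
  obtain ⟨b, B, hB, hBd, hB0⟩ := root_of_pos (hd'.trans_ne hd)
  have hab : a ≠ b := by
    rintro rfl
    have e1 : P.eval a = 0 := by rw [hA]; simp
    have e2 : (P - 1).eval a = 0 := by rw [hB]; simp
    rw [eval_sub, e1, eval_one] at e2
    simp at e2
  have xa := X_sub_ne a
  have xb := X_sub_ne b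
  have c1 := Cne (Ne.symm hab)
  have eA : algebraMap K[X] (RatFunc K) P = (RatFunc.X - RatFunc.C a) * algebraMap K[X] (RatFunc K) A := by rw [hA, map_mul, io_X_sub]
  have eB : algebraMap K[X] (RatFunc K) P - 1 = (RatFunc.X - RatFunc.C b) * algebraMap K[X] (RatFunc K) B := by
    rw [← io_X_sub, ← map_mul, ← hB, map_sub, map_one]
  have jA := io_ne hA0
  have jB := io_ne hB0
  have ew : (RatFunc.X - RatFunc.C a) / RatFunc.C (b - a) - 1 =
      (RatFunc.X - RatFunc.C b) / RatFunc.C (b - a) := by
    rw [map_sub, div_sub_one c1]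
    congr 1; ring
  refine h.step (w := (RatFunc.X - RatFunc.C a) / RatFunc.C (b - a)) (io_ne hP0) ?_ ?_ ?_
    (h1 b a (Ne.symm hab)) ?_ ?_ ?_
  · intro e
    rw [e, sub_self] at eB
    exact (mul_ne_zero xb jB) eB.symm
  · rw [map_sub]; exact div_ne_zero xa c1
  · intro e
    rw [e, sub_self, map_sub] at ew
    exact (div_ne_zero xb c1) ew.symm
  · have e : algebraMap K[X] (RatFunc K) P / ((RatFunc.X - RatFunc.C a) / RatFunc.C (b - a)) =
        algebraMap K[X] (RatFunc K) (A * C (b - a)) / algebraMap K[X] (RatFunc K) 1 := by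
      rw [eA, map_mul, map_one, RatFunc.algebraMap_C, map_sub]
      field_simp
    rw [e]
    exact IH _ _ (by rw [natDegree_mul_C (sub_ne_zero.2 (Ne.symm hab))]; omega) (by simp)
  · have e : (algebraMap K[X] (RatFunc K) P - 1) / ((RatFunc.X - RatFunc.C a) / RatFunc.C (b - a) - 1) =
        algebraMap K[X] (RatFunc K) (B * C (b - a)) / algebraMap K[X] (RatFunc K) 1 := by
      rw [ew, eB, map_mul, map_one, RatFunc.algebraMap_C, map_sub]
      field_simp
    rw [e]
    exact IH _ _ (by rw [natDegree_mul_C (sub_ne_zero.2 (Ne.symm hab))]; omega) (by simp)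
  · have e : (algebraMap K[X] (RatFunc K) P - 1) * ((RatFunc.X - RatFunc.C a) / RatFunc.C (b - a)) /
        (algebraMap K[X] (RatFunc K) P * ((RatFunc.X - RatFunc.C a) / RatFunc.C (b - a) - 1)) = algebraMap K[X] (RatFunc K) B / algebraMap K[X] (RatFunc K) A := by
      rw [ew, eB, eA, map_sub]
      field_simp
    rw [e]
    exact IH _ _ (by omega) (by omega)

lemma Five.ratio [IsAlgClosed K] {D : RatFunc K → ℚ} (h : Five D)
    (h0 : ∀ c : K, D (RatFunc.C c) = 0)
    (h1 : ∀ p q : K, p ≠ q → D ((RatFunc.X - RatFunc.C q) / RatFunc.C (p - q)) = 0) (N : ℕ) :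
    ∀ A B : K[X], A.natDegree ≤ N → B.natDegree ≤ N → D (algebraMap K[X] (RatFunc K) A / algebraMap K[X] (RatFunc K) B) = 0 := by
  induction N with
  | zero =>
    intro P Q hP hQ
    rw [io_const (Nat.le_zero.1 hP), io_const (Nat.le_zero.1 hQ), ← map_div₀]
    exact h0 _
  | succ N IH =>
    intro P Q hP hQ
    have hpoly := h.poly h0 h1 IH
    by_cases hP0 : P = 0
    · subst hP0; rw [map_zero, zero_div]; exact h.zero
    by_cases hQ0 : Q = 0
    · subst hQ0; rw [map_zero, div_zero]; exact h.zero
    by_cases hR0 : Q - P = 0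
    · rw [sub_eq_zero] at hR0
      subst hR0
      rw [div_self (io_ne hQ0)]; exact h.one
    by_cases hQd : Q.natDegree = 0
    · have hq : Q.coeff 0 ≠ 0 := by
        intro e
        apply hQ0
        rw [eq_C_of_natDegree_eq_zero hQd, e, C_0]
      have e : algebraMap K[X] (RatFunc K) P / algebraMap K[X] (RatFunc K) Q = algebraMap K[X] (RatFunc K) (P * C (Q.coeff 0)⁻¹) := by
        rw [io_const hQd, map_mul, RatFunc.algebraMap_C, map_inv₀, div_eq_mul_inv]
      rw [e]
      exact hpoly _ (by rwa [natDegree_mul_C (inv_ne_zero hq)])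
    by_cases hPd : P.natDegree = 0
    · have hp : P.coeff 0 ≠ 0 := by
        intro e
        apply hP0
        rw [eq_C_of_natDegree_eq_zero hPd, e, C_0]
      have e : (algebraMap K[X] (RatFunc K) P / algebraMap K[X] (RatFunc K) Q)⁻¹ = algebraMap K[X] (RatFunc K) (Q * C (P.coeff 0)⁻¹) := by
        rw [inv_div, io_const hPd, map_mul, RatFunc.algebraMap_C, map_inv₀, div_eq_mul_inv]
      have := h.inv (algebraMap K[X] (RatFunc K) P / algebraMap K[X] (RatFunc K) Q)
      rw [e, hpoly _ (by rwa [natDegree_mul_C (inv_ne_zero hp)])] at this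
      linarith
    by_cases hRd : (Q - P).natDegree = 0
    · have hr : (Q - P).coeff 0 ≠ 0 := by
        intro e
        apply hR0
        rw [eq_C_of_natDegree_eq_zero hRd, e, C_0]
      have jP := io_ne hP0
      have jQ := io_ne hQ0
      have jR := io_ne hR0
      have jR' : algebraMap K[X] (RatFunc K) P - algebraMap K[X] (RatFunc K) Q ≠ 0 := by
        rw [map_sub] at jR
        intro e
        apply jR
        rw [← neg_sub, e, neg_zero]
      have e : (1 - (algebraMap K[X] (RatFunc K) P / algebraMap K[X] (RatFunc K) Q)⁻¹)⁻¹ = algebraMap K[X] (RatFunc K) (P * C (-((Q - P).coeff 0)⁻¹)) := by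
        have e1 : RatFunc.C ((Q - P).coeff 0) = algebraMap K[X] (RatFunc K) Q - algebraMap K[X] (RatFunc K) P := by
          rw [← io_const hRd, map_sub]
        rw [map_mul, RatFunc.algebraMap_C, map_neg, map_inv₀, e1, inv_div, one_sub_div jP,
          inv_div, ← inv_neg, neg_sub, div_eq_mul_inv]
      have e2 := h.inv (1 - (algebraMap K[X] (RatFunc K) P / algebraMap K[X] (RatFunc K) Q)⁻¹)
      have e3 := h.sub (algebraMap K[X] (RatFunc K) P / algebraMap K[X] (RatFunc K) Q)⁻¹
      have e4 := h.inv (algebraMap K[X] (RatFunc K) P / algebraMap K[X] (RatFunc K) Q)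
      rw [e, hpoly _ (by rwa [natDegree_mul_C (neg_ne_zero.2 (inv_ne_zero hr))])] at e2
      linarith
    have hRle : (Q - P).natDegree ≤ N + 1 := by
      refine (natDegree_sub_le _ _).trans (max_le hQ hP)
    obtain ⟨a, A, hA, hAd, hA0⟩ := root_of_pos hPd
    obtain ⟨c, E, hE, hEd, hE0⟩ := root_of_pos hQd
    obtain ⟨b, B, hB, hBd, hB0⟩ := root_of_pos hRd
    -- common roots
    by_cases hcom : ∃ r, P.IsRoot r ∧ Q.IsRoot r
    · obtain ⟨r, hr1, hr2⟩ := hcom
      obtain ⟨P', hP'⟩ := dvd_iff_isRoot.2 hr1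
      obtain ⟨Q', hQ'⟩ := dvd_iff_isRoot.2 hr2
      have hP'0 : P' ≠ 0 := by rintro rfl; rw [mul_zero] at hP'; exact hP0 hP'
      have hQ'0 : Q' ≠ 0 := by rintro rfl; rw [mul_zero] at hQ'; exact hQ0 hQ'
      have d1 : P.natDegree = 1 + P'.natDegree := by
        rw [hP', natDegree_mul (X_sub_C_ne_zero r) hP'0, natDegree_X_sub_C]
      have d2 : Q.natDegree = 1 + Q'.natDegree := by
        rw [hQ', natDegree_mul (X_sub_C_ne_zero r) hQ'0, natDegree_X_sub_C]
      have e : algebraMap K[X] (RatFunc K) P / algebraMap K[X] (RatFunc K) Q = algebraMap K[X] (RatFunc K) P' / algebraMap K[X] (RatFunc K) Q' := by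
        rw [hP', hQ', map_mul, map_mul, mul_div_mul_left _ _ (io_ne (X_sub_C_ne_zero r))]
      rw [e]
      exact IH _ _ (by omega) (by omega)
    push Not at hcom
    have ra : P.eval a = 0 := by rw [hA]; simp
    have rc : Q.eval c = 0 := by rw [hE]; simp
    have rb : (Q - P).eval b = 0 := by rw [hB]; simp
    have hab : a ≠ b := by
      rintro rfl
      rw [eval_sub, ra, sub_zero] at rb
      exact hcom a ra rb
    have hac : a ≠ c := by
      rintro rfl
      exact hcom a ra rc
    have hbc : b ≠ c := by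
      rintro rfl
      rw [eval_sub, rc, zero_sub, neg_eq_zero] at rb
      exact hcom b rb rc
    have xa := X_sub_ne a
    have xb := X_sub_ne b
    have xc := X_sub_ne c
    have c1 := Cne (Ne.symm hab)
    have c2 := Cne hbc
    have c3 := Cne (Ne.symm hac)
    have eA : algebraMap K[X] (RatFunc K) P = (RatFunc.X - RatFunc.C a) * algebraMap K[X] (RatFunc K) A := by rw [hA, map_mul, io_X_sub]
    have eE : algebraMap K[X] (RatFunc K) Q = (RatFunc.X - RatFunc.C c) * algebraMap K[X] (RatFunc K) E := by rw [hE, map_mul, io_X_sub]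
    have eB : algebraMap K[X] (RatFunc K) Q - algebraMap K[X] (RatFunc K) P = (RatFunc.X - RatFunc.C b) * algebraMap K[X] (RatFunc K) B := by
      rw [← io_X_sub, ← map_mul, ← hB, map_sub]
    have jA := io_ne hA0
    have jB := io_ne hB0
    have jE := io_ne hE0
    have jP := io_ne hP0
    have jQ := io_ne hQ0
    have eu : algebraMap K[X] (RatFunc K) P / algebraMap K[X] (RatFunc K) Q - 1 = - ((RatFunc.X - RatFunc.C b) * algebraMap K[X] (RatFunc K) B) /
        ((RatFunc.X - RatFunc.C c) * algebraMap K[X] (RatFunc K) E) := by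
      rw [div_sub_one jQ, ← eB, ← eE]; congr 1; ring
    have ew : (RatFunc.X - RatFunc.C a) * RatFunc.C (b - c) /
      ((RatFunc.X - RatFunc.C c) * RatFunc.C (b - a)) - 1 =
        - ((RatFunc.X - RatFunc.C b) * RatFunc.C (c - a)) /
          ((RatFunc.X - RatFunc.C c) * RatFunc.C (b - a)) := by
      rw [map_sub, map_sub, map_sub, div_sub_one (mul_ne_zero xc c1)]
      congr 1; ring
    refine h.step (w := (RatFunc.X - RatFunc.C a) * RatFunc.C (b - c) /
      ((RatFunc.X - RatFunc.C c) * RatFunc.C (b - a))) (div_ne_zero jP jQ) ?_ ?_ ?_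
      (h.frac h0 h1 hab hac hbc) ?_ ?_ ?_
    · intro e
      rw [e, sub_self] at eu
      exact (div_ne_zero (neg_ne_zero.2 (mul_ne_zero xb jB)) (mul_ne_zero xc jE)) eu.symm
    · rw [map_sub, map_sub]; exact div_ne_zero (mul_ne_zero xa c2) (mul_ne_zero xc c1)
    · intro e
      rw [e, sub_self, map_sub, map_sub] at ew
      exact (div_ne_zero (neg_ne_zero.2 (mul_ne_zero xb c3)) (mul_ne_zero xc c1)) ew.symm
    · have e : algebraMap K[X] (RatFunc K) P / algebraMap K[X] (RatFunc K) Q / ((RatFunc.X - RatFunc.C a) * RatFunc.C (b - c) /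
          ((RatFunc.X - RatFunc.C c) * RatFunc.C (b - a))) =
          algebraMap K[X] (RatFunc K) (A * C (b - a)) / algebraMap K[X] (RatFunc K) (E * C (b - c)) := by
        rw [eA, eE, map_mul, map_mul, RatFunc.algebraMap_C, RatFunc.algebraMap_C, map_sub, map_sub]
        field_simp
      rw [e]
      exact IH _ _ (by rw [natDegree_mul_C (sub_ne_zero.2 (Ne.symm hab))]; omega)
        (by rw [natDegree_mul_C (sub_ne_zero.2 hbc)]; omega)
    · have e : (algebraMap K[X] (RatFunc K) P / algebraMap K[X] (RatFunc K) Q - 1) / ((RatFunc.X - RatFunc.C a) * RatFunc.C (b - c) /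
          ((RatFunc.X - RatFunc.C c) * RatFunc.C (b - a)) - 1) =
          algebraMap K[X] (RatFunc K) (B * C (b - a)) / algebraMap K[X] (RatFunc K) (E * C (c - a)) := by
        rw [eu, ew, map_mul, map_mul, RatFunc.algebraMap_C, RatFunc.algebraMap_C, map_sub, map_sub]
        field_simp
      rw [e]
      exact IH _ _ (by rw [natDegree_mul_C (sub_ne_zero.2 (Ne.symm hab))]; omega)
        (by rw [natDegree_mul_C (sub_ne_zero.2 (Ne.symm hac))]; omega)
    · have e : (algebraMap K[X] (RatFunc K) P / algebraMap K[X] (RatFunc K) Q - 1) * ((RatFunc.X - RatFunc.C a) * RatFunc.C (b - c) /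
          ((RatFunc.X - RatFunc.C c) * RatFunc.C (b - a))) /
          (algebraMap K[X] (RatFunc K) P / algebraMap K[X] (RatFunc K) Q * ((RatFunc.X - RatFunc.C a) * RatFunc.C (b - c) /
          ((RatFunc.X - RatFunc.C c) * RatFunc.C (b - a)) - 1)) =
          algebraMap K[X] (RatFunc K) (B * C (b - c)) / algebraMap K[X] (RatFunc K) (A * C (c - a)) := by
        rw [eu, ew, eA, eE, map_mul, map_mul, RatFunc.algebraMap_C, RatFunc.algebraMap_C,
          map_sub, map_sub, map_sub]
        field_simp
      rw [e]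
      exact IH _ _ (by rw [natDegree_mul_C (sub_ne_zero.2 hbc)]; omega)
        (by rw [natDegree_mul_C (sub_ne_zero.2 (Ne.symm hac))]; omega)

end gen

/-- (S3) generation: five-term functionals on `K(t)` killing constants and affine functions -/
theorem Five.eq_zero {K : Type u} [Field K] [IsAlgClosed K] {D : RatFunc K → ℚ} (h : Five D)
    (h0 : ∀ c : K, D (RatFunc.C c) = 0)
    (h1 : ∀ p q : K, p ≠ q → D ((RatFunc.X - RatFunc.C q) / RatFunc.C (p - q)) = 0)
    (f : RatFunc K) : D f = 0 := by
  rw [← RatFunc.num_div_denom f]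
  exact h.ratio h0 h1 (max f.num.natDegree f.denom.natDegree) _ _ (le_max_left _ _)
    (le_max_right _ _)

/-- the kernel `l((x-q)/(p-q)) - l((y-q)/(p-q))`, bilinear in the divisors `p, q` -/
def kap {K : Type u} [Field K] (l : K → ℚ) (x y : K) : (K →₀ ℚ) →ₗ[ℚ] (K →₀ ℚ) →ₗ[ℚ] ℚ :=
  Finsupp.lsum ℚ fun p => LinearMap.toSpanSingleton ℚ _ (Finsupp.lsum ℚ fun q =>
    LinearMap.toSpanSingleton ℚ ℚ (l ((x - q) / (p - q)) - l ((y - q) / (p - q))))

lemma kap_single {K : Type u} [Field K] (l : K → ℚ) (x y p q : K) :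
    kap l x y (Finsupp.single p 1) (Finsupp.single q 1) =
      l ((x - q) / (p - q)) - l ((y - q) / (p - q)) := by
  simp [kap]

lemma kap_anti {K : Type u} [Field K] {l : K → ℚ} (h : Five l) (x y : K) (v w : K →₀ ℚ) :
    kap l x y v w = - kap l x y w v := by
  have key : kap l x y = - (kap l x y).flip := by
    refine Finsupp.lhom_ext' fun p => LinearMap.ext_ring ?_
    refine Finsupp.lhom_ext' fun q => LinearMap.ext_ring ?_
    simp only [LinearMap.comp_apply, Finsupp.lsingle_apply, LinearMap.neg_apply,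
      LinearMap.flip_apply]
    rw [kap_single, kap_single]
    by_cases hpq : p = q
    · subst hpq; simp
    have hsub : ∀ z : K, l ((z - q) / (p - q)) = - l ((z - p) / (q - p)) := by
      intro z
      have e : (z - q) / (p - q) = 1 - (z - p) / (q - p) := by
        have h1 : p - q ≠ 0 := sub_ne_zero.2 hpq
        have h2 : q - p ≠ 0 := sub_ne_zero.2 (Ne.symm hpq)
        rw [one_sub_div h2, div_eq_div_iff h1 h2]
        ring
      rw [e, h.sub]
    rw [hsub x, hsub y]; ring
  have := congrArg (fun k => k v w) key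
  simpa using this

/-- (S4) -/
lemma kap_self {K : Type u} [Field K] {l : K → ℚ} (h : Five l) (x y : K) (v : K →₀ ℚ) :
    kap l x y v v = 0 := by
  have := kap_anti h x y v v
  linarith

/-- the kernel on `K(t)^*` -/
def kapU {K : Type u} [Field K] (l : K → ℚ) (x y : K) :
    Additive (RatFunc K)ˣ →+ Additive (RatFunc K)ˣ →+ ℚ :=
  AddMonoidHom.mk' (fun a => ((kap l x y (dv a)).toAddMonoidHom).comp dv) (fun a b => by
    ext c; simp)

lemma kapU_apply {K : Type u} [Field K] (l : K → ℚ) (x y : K) (a b : Additive (RatFunc K)ˣ) :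
    kapU l x y a b = kap l x y (dv a) (dv b) := rfl

/-- (S5) the reciprocity law; only the case `f ≠ 0`, `1 - f ≠ 0` is interesting -/
theorem kap_dv {K : Type u} [Field K] [IsAlgClosed K] {l : K → ℚ} (h : Five l) (x y : K)
    (f : RatFunc K) :
    kap l x y (dv (lg (1 - f))) (dv (lg f)) =
      lP l (spec x (some f)) - lP l (spec y (some f)) := by
  have h1 : Five (fun f : RatFunc K => kapU l x y (lg (1 - f)) (lg f)) :=
    Five.ofAlt _ (fun v => kap_self h x y (dv v))
  have h2 := (h.ofSpec x).difference (h.ofSpec y)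
  have h3 := h1.difference h2
  have h4 := h3.eq_zero ?_ ?_ f
  · rw [kapU_apply] at h4
    linarith
  · intro c
    rw [kapU_apply, spec_C, spec_C, dv_C, map_zero]
    ring
  · intro p q hpq
    have hpq' : p - q ≠ 0 := sub_ne_zero.2 hpq
    have hqp' : q - p ≠ 0 := sub_ne_zero.2 (Ne.symm hpq)
    have e1 : (1 : RatFunc K) - (RatFunc.X - RatFunc.C q) / RatFunc.C (p - q) =
        (RatFunc.X - RatFunc.C p) / RatFunc.C (q - p) := by
      have c1 := Cne hpq
      have c2 := Cne (Ne.symm hpq)
      rw [map_sub, map_sub, one_sub_div c1, div_eq_div_iff c1 c2]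
      ring
    have e2 : ∀ (r c : K), c ≠ 0 → dv (lg ((RatFunc.X - RatFunc.C r) / RatFunc.C c)) =
        Finsupp.single r 1 := by
      intro r c hc
      rw [dv_div (X_sub_ne r) (C_ne hc), dv_C, sub_zero]
      exact dv_ee r
    have e3 : ∀ z : K, spec z (some ((RatFunc.X - RatFunc.C q) / RatFunc.C (p - q))) =
        some ((z - q) / (p - q)) := by
      intro z
      have := spec_div z (X - C q) (C (p - q)) (C_ne_zero.2 hpq') (Or.inr (by simpa using hpq'))
      rw [map_sub, RatFunc.algebraMap_X, RatFunc.algebraMap_C, RatFunc.algebraMap_C] at this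
      rw [this, if_neg (by simpa using hpq')]
      simp
    rw [kapU_apply, e1, e2 _ _ hqp', e2 _ _ hpq', e3, e3, kap_single]
    simp [lP]

/-- the functional on `Λ²` given by the kernel -/
def kapL {K : Type u} [Field K] (l : K → ℚ) (h : Five l) (x y : K) : L2 (RatFunc K) →ₗ[ℤ] ℚ :=
  exteriorPower.alternatingMapLinearEquiv
    { toFun := fun v => kapU l x y (v 0) (v 1)
      map_update_add' := by
        intro _ m i a b
        fin_cases i <;> simp
      map_update_smul' := by
        intro _ m i c a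
        fin_cases i <;> simp
      map_eq_zero_of_eq' := by
        intro v i j hv hij
        have : v 0 = v 1 := by
          fin_cases i <;> fin_cases j
          · exact absurd rfl hij
          · exact hv
          · exact hv.symm
          · exact absurd rfl hij
        rw [this]
        exact kap_self h x y _ }

/-- (S6) five-term functionals kill `R_2(K)` -/
theorem Five.kill {K : Type u} [Field K] [IsAlgClosed K] {l : K → ℚ} (h : Five l)
    {α : ZP K} (hα : α ∈ R 2 K) : ext (lP l) α = 0 := by
  rw [R_add_two] at hα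
  induction hα using AddSubgroup.closure_induction with
  | zero => simp
  | add a b _ _ ha hb => rw [map_add, ha, hb, add_zero]
  | neg a _ ha => rw [map_neg, ha, neg_zero]
  | mem a ha =>
    rcases ha with ha | ⟨β, hβ, rfl⟩
    · rcases ha with rfl | ha
      · rw [ext_br]; exact h.zero
      · rw [Set.mem_singleton_iff] at ha
        subst ha
        rw [ext_br]; rfl
    · have key : ∀ γ : ZP (RatFunc K), ext (lP l) (specZ 0 γ) - ext (lP l) (specZ 1 γ) =
          kapL l h 0 1 (delta2 _ γ) := by
        intro γ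
        have : ((ext (lP l)).comp (specZ 0) - (ext (lP l)).comp (specZ 1) : ZP (RatFunc K) →+ ℚ) =
            (kapL l h 0 1).toAddMonoidHom.comp (delta2 _) := by
          refine hom_ext fun x => ?_
          simp only [AddMonoidHom.sub_apply, AddMonoidHom.comp_apply, specZ_single, delta2, ext_br]
          cases x with
          | none => simp [d2]
          | some f =>
            have e := kap_dv h 0 1 f
            rw [d2, ← e]
            change _ = kapL l h 0 1 (exteriorPower.ιMulti ℤ 2 ![lg (1 - f), lg f])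
            rw [kapL, exteriorPower.alternatingMapLinearEquiv_apply_ιMulti]
            rfl
        exact DFunLike.congr_fun this γ
      rw [map_sub, key, (show delta2 _ β = 0 from hβ), map_zero]

end Helper14.W4
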